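import Pool.Agent.Helper84.QB.Acts
import Pool.Agent.Helper33.QB.LimDefs
import Pool.Agent.Helper46.QB.Ring2

set_option autoImplicit false

namespace Pool.Agent.Helper33.QB

open Set

universe v

variable {Ω : Type} {I : Type v}

/-- Multiplication of a reduced word by a letter. -/
theorem j1_letter_mul [DecidableEq I] {c : FreeGroup I} {a : I × Bool} {t : List (I × Bool)}
    (hc : c.toWord = a :: t) (i : I) (s : Bool) :
    ((i = a.1 ∧ s = !a.2) ∧ FreeGroup.mk [(i, s)] * c = FreeGroup.mk t) ∨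
      (FreeGroup.mk [(i, s)] * c).norm = c.norm + 1 := by
  have h1 : (FreeGroup.mk [(i, s)] * c).toWord =
      if (i = a.1 ∧ s = !a.2) then t else (i, s) :: a :: t := by
    rw [FreeGroup.toWord_mul, FreeGroup.toWord_mk, hc]
    have h2 : FreeGroup.reduce [(i, s)] = [(i, s)] := by simp [FreeGroup.reduce.cons]
    rw [h2, List.singleton_append, FreeGroup.reduce.cons]
    have h3 : FreeGroup.reduce (a :: t) = a :: t := by
      rw [← hc, FreeGroup.reduce_toWord]
    rw [h3]
  by_cases h : (i = a.1 ∧ s = !a.2)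
  · left
    rw [if_pos h] at h1
    refine ⟨h, ?_⟩
    rw [← h1, FreeGroup.mk_toWord]
  · right
    rw [if_neg h] at h1
    rw [FreeGroup.norm, h1, FreeGroup.norm, hc]
    simp

/-- The tail of a word is shorter. -/
theorem j1_tail_norm [DecidableEq I] {c : FreeGroup I} {a : I × Bool} {t : List (I × Bool)}
    (hc : c.toWord = a :: t) : (FreeGroup.mk t).norm < c.norm := by
  have h1 := FreeGroup.norm_mk_le (L₁ := t)
  have h2 : c.norm = t.length + 1 := by rw [FreeGroup.norm, hc]; simp
  omega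

/-- Neighbourhood systems satisfying finitely many hereditary conditions. -/
theorem j1_shrink {R : Set (Set Ω)} (hRi : ∀ K ∈ R, ∀ K' ∈ R, K ∩ K' ∈ R)
    {W : Set (FreeGroup I)} {pt : FreeGroup I → Ω} {τ : Type*} {T : Set τ} (hT : T.Finite)
    {P : τ → (FreeGroup I → Set Ω) → Prop}
    (hh : ∀ t ∈ T, ∀ V V' : FreeGroup I → Set Ω, (∀ w ∈ W, V w ⊆ V' w) → P t V' → P t V)
    (he : ∀ t ∈ T, ∃ V : FreeGroup I → Set Ω, (∀ w ∈ W, V w ∈ R ∧ pt w ∈ V w) ∧ P t V)
    {V0 : FreeGroup I → Set Ω} (hV0 : ∀ w ∈ W, V0 w ∈ R ∧ pt w ∈ V0 w) :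
    ∃ V : FreeGroup I → Set Ω, (∀ w ∈ W, V w ∈ R ∧ pt w ∈ V w ∧ V w ⊆ V0 w) ∧ ∀ t ∈ T, P t V := by
  induction T, hT using Set.Finite.induction_on with
  | empty => exact ⟨V0, fun w hw => ⟨(hV0 w hw).1, (hV0 w hw).2, subset_rfl⟩, by simp⟩
  | @insert t T ht _ ih =>
    obtain ⟨V, hV, hP⟩ := ih (fun t ht => hh t (mem_insert_of_mem _ ht))
      (fun t ht => he t (mem_insert_of_mem _ ht))
    obtain ⟨V', hV', hP'⟩ := he t (mem_insert _ _)
    refine ⟨fun w => V w ∩ V' w, fun w hw => ⟨hRi _ (hV w hw).1 _ (hV' w hw).1,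
      ⟨(hV w hw).2.1, (hV' w hw).2⟩, fun x hx => (hV w hw).2.2 hx.1⟩, ?_⟩
    intro u hu
    rcases mem_insert_iff.1 hu with rfl | hu'
    · exact hh u (mem_insert _ _) _ V' (fun w hw => inter_subset_right) hP'
    · exact hh u (mem_insert_of_mem _ hu') _ V (fun w hw => inter_subset_left) (hP u hu')

/-- Separation of two points which are not connected by `g`. -/
theorem j1_sep {Y : Set Ω} {R : Set (Set Ω)} {r : Ω → Ordinal.{0}} (hY : GR Y R r)
    {G : I → Ω → Ω → Prop} (hPF : PF G) (hC : ClSys Y R G) {a b : Ω} (ha : a ∈ Y) (hb : b ∈ Y)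
    {g : FreeGroup I} (hab : ¬ Acts G g a b) :
    ∃ U ∈ R, ∃ V ∈ R, a ∈ U ∧ b ∈ V ∧ ∀ x ∈ U, ∀ y ∈ V, ¬ Acts G g x y := by
  have h1 : ∃ V ∈ R, b ∈ V ∧ ∀ y ∈ V, ¬ Acts G g a y := by
    by_cases h : ∃ z, z ∈ Y ∧ Acts G g a z
    · obtain ⟨z, hzY, hz⟩ := h
      have hbz : b ≠ z := fun h => hab (h ▸ hz)
      obtain ⟨V, hV, hbV, hzV⟩ := hY.sep b hb z hzY hbz
      refine ⟨V, hV, hbV, fun y hy hay => ?_⟩
      exact hzV ((Acts.unique hPF hz hay) ▸ hy)
    · obtain ⟨V, hV, hbV⟩ := hY.cov b hb
      exact ⟨V, hV, hbV, fun y hy hay => h ⟨y, hY.sub V hV hy, hay⟩⟩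
  obtain ⟨V, hV, hbV, hV2⟩ := h1
  have h2 := Acts.closed hPF hC (Cl.of_mem hY hV) g⁻¹
  obtain ⟨U, hU, haU, hU2⟩ := h2.2 a ha (by
    rintro ⟨y, hy, hya⟩
    have := hya.inv
    rw [inv_inv] at this
    exact hV2 y hy this)
  refine ⟨U, hU, V, hV, haU, hbV, fun x hx y hy hxy => ?_⟩
  have : x ∈ U ∩ {y | ∃ x ∈ V, Acts G g⁻¹ x y} := ⟨hx, y, hy, hxy.inv⟩
  rw [hU2] at this
  exact this

/-- The shrinking step: the relations between the neighbourhoods. -/
theorem j1_relations [DecidableEq I] {Y : Set Ω} {R : Set (Set Ω)} {r : Ω → Ordinal.{0}}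
    (hY : GR Y R r) {S : Set I} {h : I → Ω → Ω} (hce : ∀ i ∈ S, CE Y R (h i))
    {pt : FreeGroup I → Ω} : ∀ (n : ℕ) {W : Set (FreeGroup I)}, W.Finite → W.ncard = n →
    TailC W →
    (∀ w ∈ W, ∀ a t, w.toWord = a :: t → a.1 ∈ S ∧
      ((a.2 = true ∧ pt (FreeGroup.mk t) ∈ Y ∧ pt w = h a.1 (pt (FreeGroup.mk t))) ∨
        (a.2 = false ∧ pt w ∈ Y ∧ pt (FreeGroup.mk t) = h a.1 (pt w)))) →
    ∀ V : FreeGroup I → Set Ω, (∀ w ∈ W, V w ∈ R ∧ pt w ∈ V w) →
    ∃ K : FreeGroup I → Set Ω, (∀ w ∈ W, K w ∈ R ∧ pt w ∈ K w ∧ K w ⊆ V w) ∧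
      ∀ w ∈ W, ∀ i ∈ S, FreeGroup.of i * w ∈ W →
        K (FreeGroup.of i * w) ∩ h i '' Y = h i '' K w := by
  intro n
  induction n with
  | zero =>
    intro W hW hn _ _ V hV
    have hW0 : W = ∅ := (Set.ncard_eq_zero hW).1 hn
    exact ⟨V, fun w hw => ⟨(hV w hw).1, (hV w hw).2, subset_rfl⟩, fun w hw => by
      rw [hW0] at hw; exact hw.elim⟩
  | succ n ih =>
    intro W hW hn hWt hpt V hV
    have hne : W.Nonempty := by
      rw [← Set.ncard_pos hW]; omega
    obtain ⟨c, hcW, hcmax⟩ := Set.exists_max_image W FreeGroup.norm hW hne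
    have hW' : (W \ {c}).Finite := hW.subset sdiff_subset
    have hn' : (W \ {c}).ncard = n := by
      rw [Set.ncard_sdiff_singleton_of_mem hcW, hn]; rfl
    have htail : ∀ w ∈ W, ∀ a t, w.toWord = a :: t → FreeGroup.mk t ∈ W \ {c} := by
      intro w hw a t hwt
      refine ⟨hWt w hw a t hwt, fun hc => ?_⟩
      have h1 := j1_tail_norm hwt
      have h2 := hcmax w hw
      rw [mem_singleton_iff] at hc
      rw [hc] at h1
      omega
    have hWt' : TailC (W \ {c}) := fun w hw a t hwt => htail w hw.1 a t hwt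
    rcases hcw : c.toWord with _ | ⟨a, t⟩
    · -- the only word is `1`
      have hc1 : c = 1 := by
        rw [← FreeGroup.norm_eq_zero, FreeGroup.norm, hcw]; rfl
      have hall : ∀ w ∈ W, w = 1 := by
        intro w hw
        have := hcmax w hw
        rw [hc1, FreeGroup.norm_one] at this
        exact FreeGroup.norm_eq_zero.1 (Nat.le_zero.1 this)
      refine ⟨V, fun w hw => ⟨(hV w hw).1, (hV w hw).2, subset_rfl⟩, fun w hw i _ hiw => ?_⟩
      have h1 := hall w hw
      have h2 := hall _ hiw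
      rw [h1, mul_one] at h2
      have h3 := FreeGroup.norm_of i
      rw [h2, FreeGroup.norm_one] at h3
      omega
    · obtain ⟨haS, hcase⟩ := hpt c hcW a t hcw
      have huW := htail c hcW a t hcw
      set u := FreeGroup.mk t with hu
      have hce' := hce a.1 haS
      rcases hcase with ⟨ha2, hptu, hptc⟩ | ⟨ha2, hptc, hptu⟩
      · -- `c = a.1 * u`
        have hcu : c = FreeGroup.of a.1 * u := by
          rw [hu, ← FreeGroup.mk_toWord (x := c), hcw]
          have : FreeGroup.of a.1 = FreeGroup.mk [(a.1, true)] := rfl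
          rw [this, FreeGroup.mul_mk, ← ha2]
          rfl
        classical
        obtain ⟨K, hK, hK2⟩ := ih hW' hn' hWt' (fun w hw => hpt w hw.1)
          (fun w => if w = u then V u ∩ {x | x ∈ Y ∧ h a.1 x ∈ V c} else V w) (by
            intro w hw
            by_cases hwu : w = u
            · subst hwu
              simp only [if_true]
              refine ⟨hY.inter (hV _ hw.1).1 (hce'.pre _ (hV c hcW).1), (hV _ hw.1).2, hptu, ?_⟩
              rw [← hptc]
              exact (hV c hcW).2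
            · simp only [if_neg hwu]
              exact hV w hw.1)
        have hKu := hK u huW
        simp only [if_true] at hKu
        obtain ⟨O, hO, hO2⟩ := hce'.img (K u) hKu.1
        have hsub : h a.1 '' K u ⊆ V c := by
          rintro _ ⟨x, hx, rfl⟩
          exact (hKu.2.2 hx).2.2
        refine ⟨fun w => if w = c then O ∩ V c else K w, ?_, ?_⟩
        · intro w hw
          by_cases hwc : w = c
          · subst hwc
            simp only [if_true]
            refine ⟨hY.inter hO (hV _ hcW).1, ⟨?_, (hV _ hcW).2⟩, inter_subset_right⟩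
            have h5 : pt w ∈ h a.1 '' K u := by
              rw [hptc]; exact mem_image_of_mem _ hKu.2.1
            rw [hO2] at h5
            exact h5.1
          · simp only [if_neg hwc]
            have h5 := hK w ⟨hw, hwc⟩
            refine ⟨h5.1, h5.2.1, ?_⟩
            by_cases hwu : w = u
            · subst hwu
              exact fun x hx => (hKu.2.2 hx).1
            · have h6 := h5.2.2
              simp only [if_neg hwu] at h6
              exact h6
        · intro w hw i hi hiw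
          by_cases h7 : FreeGroup.of i * w = c
          · have h8 : w = FreeGroup.mk [(i, false)] * c := by
              rw [← h7, ← mul_assoc]
              have : FreeGroup.mk [(i, false)] = (FreeGroup.of i)⁻¹ := rfl
              rw [this, inv_mul_cancel, one_mul]
            rcases j1_letter_mul hcw i false with ⟨⟨h9, h10⟩, h11⟩ | h9
            · have hwu : w = u := h8.trans h11
              have hwc : w ≠ c := by
                rw [hwu]; exact huW.2
              beta_reduce
              rw [h7, if_pos rfl, if_neg hwc, hwu, h9]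
              have h12 : O ∩ V c ∩ h a.1 '' Y = V c ∩ (O ∩ h a.1 '' Y) := by
                ext x; simp only [mem_inter_iff]; tauto
              rw [h12, ← hO2]
              exact inter_eq_right.2 hsub
            · rw [← h8] at h9
              have := hcmax w hw
              omega
          · by_cases h8 : w = c
            · exfalso
              rw [h8] at hiw
              rcases j1_letter_mul hcw i true with ⟨⟨h9, h10⟩, h11⟩ | h9
              · rw [ha2] at h10
                simp at h10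
              · have := hcmax _ hiw
                have h12 : FreeGroup.of i = FreeGroup.mk [(i, true)] := rfl
                rw [h12] at this
                omega
            · beta_reduce
              rw [if_neg h7, if_neg h8]
              exact hK2 w ⟨hw, h8⟩ i hi ⟨hiw, h7⟩
      · -- `u = a.1 * c`
        have hcu : u = FreeGroup.of a.1 * c := by
          have h1 : FreeGroup.mk [(a.1, false)] = (FreeGroup.of a.1)⁻¹ := rfl
          have h2 : c = FreeGroup.mk [(a.1, false)] * u := by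
            rw [hu, FreeGroup.mul_mk, ← ha2, ← FreeGroup.mk_toWord (x := c), hcw]
            rfl
          rw [h2, h1, mul_inv_cancel_left]
        classical
        obtain ⟨O, hO, hO2⟩ := hce'.img (V c) (hV c hcW).1
        have hptuO : pt u ∈ O := by
          have : pt u ∈ h a.1 '' V c := by
            rw [hptu]; exact mem_image_of_mem _ (hV c hcW).2
          rw [hO2] at this
          exact this.1
        obtain ⟨K, hK, hK2⟩ := ih hW' hn' hWt' (fun w hw => hpt w hw.1)
          (fun w => if w = u then V u ∩ O else V w) (by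
            intro w hw
            by_cases hwu : w = u
            · subst hwu
              simp only [if_true]
              exact ⟨hY.inter (hV _ hw.1).1 hO, (hV _ hw.1).2, hptuO⟩
            · simp only [if_neg hwu]
              exact hV w hw.1)
        have hKu := hK u huW
        simp only [if_true] at hKu
        refine ⟨fun w => if w = c then {x | x ∈ Y ∧ h a.1 x ∈ K u} else K w, ?_, ?_⟩
        · intro w hw
          by_cases hwc : w = c
          · subst hwc
            simp only [if_true]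
            refine ⟨hce'.pre _ hKu.1, ⟨hptc, ?_⟩, ?_⟩
            · rw [← hptu]; exact hKu.2.1
            · rintro x ⟨hxY, hx⟩
              have h5 : h a.1 x ∈ O ∩ h a.1 '' Y := ⟨(hKu.2.2 hx).2, mem_image_of_mem _ hxY⟩
              rw [← hO2] at h5
              obtain ⟨v, hv, hvx⟩ := h5
              have h6 := hce'.inj (hY.sub _ (hV w hw).1 hv) hxY hvx
              rw [← h6]
              exact hv
          · simp only [if_neg hwc]
            have h5 := hK w ⟨hw, hwc⟩
            refine ⟨h5.1, h5.2.1, ?_⟩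
            by_cases hwu : w = u
            · subst hwu
              exact fun x hx => (hKu.2.2 hx).1
            · have h6 := h5.2.2
              simp only [if_neg hwu] at h6
              exact h6
        · intro w hw i hi hiw
          by_cases h8 : w = c
          · rw [h8] at hiw ⊢
            rcases j1_letter_mul hcw i true with ⟨⟨h9, h10⟩, h11⟩ | h9
            · have h12 : FreeGroup.of i * c = u := h11
              have huc : u ≠ c := huW.2
              beta_reduce
              rw [h12, if_neg huc, if_pos rfl, h9]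
              ext x
              constructor
              · rintro ⟨hx, y, hy, rfl⟩
                exact ⟨y, ⟨hy, hx⟩, rfl⟩
              · rintro ⟨y, ⟨hy, hyK⟩, rfl⟩
                exact ⟨hyK, y, hy, rfl⟩
            · have := hcmax _ hiw
              have h12 : FreeGroup.of i = FreeGroup.mk [(i, true)] := rfl
              rw [h12] at this
              omega
          · by_cases h7 : FreeGroup.of i * w = c
            · exfalso
              have h8 : w = FreeGroup.mk [(i, false)] * c := by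
                rw [← h7, ← mul_assoc]
                have : FreeGroup.mk [(i, false)] = (FreeGroup.of i)⁻¹ := rfl
                rw [this, inv_mul_cancel, one_mul]
              rcases j1_letter_mul hcw i false with ⟨⟨h9, h10⟩, h11⟩ | h9
              · rw [ha2] at h10
                simp at h10
              · rw [← h8] at h9
                have := hcmax w hw
                omega
            · beta_reduce
              rw [if_neg h7, if_neg h8]
              exact hK2 w ⟨hw, h8⟩ i hi ⟨hiw, h7⟩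

/-- One interval `A` (clopen in `Y`), on which the letters of `S` act freely and properly; a
finite set `W` of words, closed under tails, which are all defined at `x0`; `pt w = w x0`. -/
theorem interval [DecidableEq I] {Y : Set Ω} {R : Set (Set Ω)} {r : Ω → Ordinal.{0}}
    (hY : GR Y R r) {S : Set I} {h : I → Ω → Ω} (hce : ∀ i ∈ S, CE Y R (h i)) {A : Set Ω}
    (hAY : A ⊆ Y) (hA : ∀ K ∈ R, K ∩ A ∈ R) (hS : ∀ i ∈ S, ∀ x ∈ Y, (x ∈ A ↔ h i x ∈ A))
    (hF : Free fun i x y => i ∈ S ∧ x ∈ A ∧ y = h i x)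
    (hP : Proper R fun i x y => i ∈ S ∧ x ∈ A ∧ y = h i x) {x0 : Ω} (hx0 : x0 ∈ A)
    {W : Set (FreeGroup I)} (hW : W.Finite) (h1 : (1 : FreeGroup I) ∈ W) (hWt : TailC W)
    {pt : FreeGroup I → Ω}
    (hpt : ∀ w ∈ W, Acts (fun i x y => i ∈ S ∧ x ∈ A ∧ y = h i x) w x0 (pt w))
    {F : Set I} (hF' : F.Finite) (hFS : F ⊆ S) :
    ∃ K : FreeGroup I → Set Ω,
      (∀ w ∈ W, K w ∈ R ∧ K w ⊆ A ∧ pt w ∈ K w ∧ ∀ y ∈ K w, y ≠ pt w → r y < r (pt w)) ∧
      (∀ w ∈ W, ∀ w' ∈ W, ∀ x ∈ K w, ∀ y ∈ K w', ∀ g,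
        Acts (fun i x y => i ∈ S ∧ x ∈ A ∧ y = h i x) g x y → g = w' * w⁻¹) ∧
      (∀ w ∈ W, ∀ i ∈ S, FreeGroup.of i * w ∈ W →
        K (FreeGroup.of i * w) ∩ h i '' Y = h i '' K w) ∧
      ∀ w ∈ W, ∀ i ∈ F, pt w ∉ h i '' Y → K w ∩ h i '' Y = ∅ := by
  set G : I → Ω → Ω → Prop := fun i x y => i ∈ S ∧ x ∈ A ∧ y = h i x with hG
  have hRi : ∀ K ∈ R, ∀ K' ∈ R, K ∩ K' ∈ R := fun K hK K' hK' => hY.inter hK hK'
  have hPF : PF G := by
    constructor
    · rintro i x y z ⟨_, _, hy⟩ ⟨_, _, hz⟩
      rw [hy, hz]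
    · rintro i x y z ⟨hi, hx, hz⟩ ⟨_, hy, hz'⟩
      exact (hce i hi).inj (hAY hx) (hAY hy) (hz.symm.trans hz')
  have hClA : Cl Y R A := by
    refine ⟨hAY, fun x hx hxA => ?_⟩
    obtain ⟨K, hK, hxK⟩ := hY.cov x hx
    refine ⟨K \ (K ∩ A), hY.df _ hK _ (hA K hK), ⟨hxK, fun h => hxA h.2⟩, ?_⟩
    ext y
    simp only [mem_inter_iff, mem_sdiff, mem_empty_iff_false, iff_false]
    tauto
  have hC : ClSys Y R G := by
    refine ⟨?_, ?_, ?_⟩
    · rintro i x y ⟨hi, hx, rfl⟩
      exact ⟨hAY hx, (hce i hi).maps x (hAY hx)⟩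
    · intro i C hC
      by_cases hi : i ∈ S
      · refine ⟨?_, ?_⟩
        · rintro y ⟨x, hx, _, hxA, rfl⟩
          exact (hce i hi).maps x (hAY hxA)
        · intro z hz hzC
          by_cases hzh : z ∈ h i '' Y
          · obtain ⟨x, hx, rfl⟩ := hzh
            have hxC : x ∉ C ∩ A := fun hx' => hzC ⟨x, hx'.1, hi, hx'.2, rfl⟩
            obtain ⟨K, hK, hxK, hK2⟩ := (Cl.inter hC hClA).2 x hx hxC
            obtain ⟨K', hK', hK'2⟩ := (hce i hi).img K hK
            refine ⟨K', hK', ?_, ?_⟩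
            · have : h i x ∈ h i '' K := mem_image_of_mem _ hxK
              rw [hK'2] at this
              exact this.1
            · ext y
              simp only [mem_inter_iff, mem_empty_iff_false, iff_false]
              rintro ⟨hy, c, hc, _, hcA, rfl⟩
              have h5 : h i c ∈ K' ∩ h i '' Y := ⟨hy, mem_image_of_mem _ (hAY hcA)⟩
              rw [← hK'2] at h5
              obtain ⟨k, hk, hkc⟩ := h5
              have h6 := (hce i hi).inj (hY.sub K hK hk) (hAY hcA) hkc
              have h7 : k ∈ K ∩ (C ∩ A) := ⟨hk, h6 ▸ hc, h6 ▸ hcA⟩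
              rw [hK2] at h7
              exact h7
          · obtain ⟨K, hK, hzK, hK2⟩ := (hce i hi).closed.2 z hz hzh
            refine ⟨K, hK, hzK, ?_⟩
            ext y
            simp only [mem_inter_iff, mem_empty_iff_false, iff_false]
            rintro ⟨hy, c, hc, _, hcA, rfl⟩
            have h7 : h i c ∈ K ∩ h i '' Y := ⟨hy, mem_image_of_mem _ (hAY hcA)⟩
            rw [hK2] at h7
            exact h7
      · have : {y | ∃ x ∈ C, G i x y} = ∅ := by
          ext y
          simp only [mem_empty_iff_false, iff_false]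
          rintro ⟨x, _, hi', _⟩
          exact hi hi'
        rw [this]
        exact Cl.empty hY
    · intro i C hC
      by_cases hi : i ∈ S
      · refine ⟨?_, ?_⟩
        · rintro x ⟨y, hy, _, hxA, rfl⟩
          exact hAY hxA
        · intro z hz hzC
          by_cases hzA : z ∈ A
          · have hzC' : h i z ∉ C := fun hz' => hzC ⟨h i z, hz', hi, hzA, rfl⟩
            obtain ⟨K, hK, hzK, hK2⟩ := hC.2 (h i z) ((hce i hi).maps z hz) hzC'
            refine ⟨_, (hce i hi).pre K hK, ⟨hz, hzK⟩, ?_⟩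
            ext x
            simp only [mem_inter_iff, mem_empty_iff_false, iff_false]
            rintro ⟨⟨_, hx⟩, y, hy, _, _, rfl⟩
            have h7 : h i x ∈ K ∩ C := ⟨hx, hy⟩
            rw [hK2] at h7
            exact h7
          · obtain ⟨K, hK, hzK, hK2⟩ := hClA.2 z hz hzA
            refine ⟨K, hK, hzK, ?_⟩
            ext x
            simp only [mem_inter_iff, mem_empty_iff_false, iff_false]
            rintro ⟨hx, y, hy, _, hxA, rfl⟩
            have h7 : x ∈ K ∩ A := ⟨hx, hxA⟩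
            rw [hK2] at h7
            exact h7
      · have : {x | ∃ y ∈ C, G i x y} = ∅ := by
          ext y
          simp only [mem_empty_iff_false, iff_false]
          rintro ⟨x, _, hi', _⟩
          exact hi hi'
        rw [this]
        exact Cl.empty hY
  have hstay : ∀ i x y, G i x y → (x ∈ A ↔ y ∈ A) := by
    rintro i x y ⟨hi, hx, rfl⟩
    exact hS i hi x (hAY hx)
  have hptA : ∀ w ∈ W, pt w ∈ A := fun w hw => (Acts.stay hstay (hpt w hw)).1 hx0
  -- first choice
  have hA0 : ∀ w ∈ W, ∃ K ∈ R, K ⊆ A ∧ pt w ∈ K ∧ ∀ y ∈ K, y ≠ pt w → r y < r (pt w) := by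
    intro w hw
    obtain ⟨K, hK, hxK⟩ := hY.cov (pt w) (hAY (hptA w hw))
    obtain ⟨K', hK', hK'K, hxK', hK'2⟩ := hY.nbhd (hA K hK) (x := pt w) ⟨hxK, hptA w hw⟩
    exact ⟨K', hK', fun x hx => (hK'K hx).2, hxK', hK'2⟩
  choose! V0 hV0R hV0A hV0pt hV0top using hA0
  have hK0R : ⋃₀ (V0 '' W) ∈ R := hY.sUnion (hW.image _) (by
    rintro _ ⟨w, hw, rfl⟩
    exact hV0R w hw)
  set Γ : Set (FreeGroup I) := {g | ∃ x ∈ ⋃₀ (V0 '' W), ∃ y ∈ ⋃₀ (V0 '' W), Acts G g x y} with hΓ
  have hΓf : Γ.Finite := hP _ hK0R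
  -- second choice: the pairs
  obtain ⟨V1, hV1, hV1P⟩ := j1_shrink (pt := pt) (W := W) hRi
    (T := {t : FreeGroup I × FreeGroup I × FreeGroup I | t.1 ∈ W ∧ t.2.1 ∈ W ∧ t.2.2 ∈ Γ ∧
      t.2.2 ≠ t.2.1 * t.1⁻¹})
    (by
      refine Set.Finite.subset (hW.prod (hW.prod hΓf)) ?_
      rintro ⟨w, w', g⟩ ⟨h1, h2, h3, _⟩
      exact ⟨h1, h2, h3⟩)
    (P := fun t V => ∀ x ∈ V t.1, ∀ y ∈ V t.2.1, ¬ Acts G t.2.2 x y)
    (by
      rintro ⟨w, w', g⟩ ⟨hw, hw', _, _⟩ V V' hVV hP x hx y hy
      exact hP x (hVV w hw hx) y (hVV w' hw' hy))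
    (by
      rintro ⟨w, w', g⟩ ⟨hw, hw', _, hne⟩
      have hw : w ∈ W := hw
      have hw' : w' ∈ W := hw'
      have hne : g ≠ w' * w⁻¹ := hne
      have hno : ¬ Acts G g (pt w) (pt w') := by
        intro hact
        have h5 := ((hpt w hw).trans hact).trans (hpt w' hw').inv
        have h6 := hF _ _ h5
        apply hne
        have h7 : g * w = w' := by
          have := inv_mul_eq_one.1 h6
          exact this.symm
        rw [← h7, mul_inv_cancel_right]
      obtain ⟨U, hU, U', hU', haU, hbU', hUU⟩ := j1_sep hY hPF hC (hAY (hptA w hw))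
        (hAY (hptA w' hw')) hno
      classical
      refine ⟨fun v => if v = w then (if v = w' then U ∩ U' else U) else
        (if v = w' then U' else V0 v), ?_, ?_⟩
      · intro v hv
        by_cases h5 : v = w
        · by_cases h6 : v = w'
          · simp only [if_pos h5, if_pos h6]
            exact ⟨hY.inter hU hU', h5 ▸ haU, h6 ▸ hbU'⟩
          · simp only [if_pos h5, if_neg h6]
            exact ⟨hU, h5 ▸ haU⟩
        · by_cases h6 : v = w'
          · simp only [if_neg h5, if_pos h6]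
            exact ⟨hU', h6 ▸ hbU'⟩
          · simp only [if_neg h5, if_neg h6]
            exact ⟨hV0R v hv, hV0pt v hv⟩
      · intro x hx y hy
        refine hUU x ?_ y ?_
        · simp only [if_true] at hx
          split_ifs at hx
          · exact hx.1
          · exact hx
        · simp only [if_true] at hy
          split_ifs at hy
          · exact hy.2
          · exact hy)
    (V0 := V0) (fun w hw => ⟨hV0R w hw, hV0pt w hw⟩)
  -- third choice: the letters of `F`
  obtain ⟨V2, hV2, hV2P⟩ := j1_shrink (pt := pt) (W := W) hRi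
    (T := {t : FreeGroup I × I | t.1 ∈ W ∧ t.2 ∈ F ∧ pt t.1 ∉ h t.2 '' Y})
    (by
      refine Set.Finite.subset (hW.prod hF') ?_
      rintro ⟨w, i⟩ ⟨h1, h2, _⟩
      exact ⟨h1, h2⟩)
    (P := fun t V => V t.1 ∩ h t.2 '' Y = ∅)
    (by
      rintro ⟨w, i⟩ ⟨hw, _, _⟩ V V' hVV hP
      refine Set.subset_eq_empty ?_ hP
      exact inter_subset_inter_left _ (hVV w hw))
    (by
      rintro ⟨w, i⟩ ⟨hw, hi, hne⟩
      have hw : w ∈ W := hw
      have hi : i ∈ F := hi
      have hne : pt w ∉ h i '' Y := hne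
      obtain ⟨U, hU, hxU, hU2⟩ := (hce i (hFS hi)).closed.2 (pt w) (hAY (hptA w hw)) hne
      classical
      refine ⟨fun v => if v = w then U else V0 v, ?_, ?_⟩
      · intro v hv
        by_cases h5 : v = w
        · simp only [if_pos h5]
          exact ⟨hU, h5 ▸ hxU⟩
        · simp only [if_neg h5]
          exact ⟨hV0R v hv, hV0pt v hv⟩
      · simp only [if_true]
        exact hU2)
    (V0 := V1) (fun w hw => ⟨(hV1 w hw).1, (hV1 w hw).2.1⟩)
  -- the relations
  have hrel : ∀ w ∈ W, ∀ a t, w.toWord = a :: t → a.1 ∈ S ∧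
      ((a.2 = true ∧ pt (FreeGroup.mk t) ∈ Y ∧ pt w = h a.1 (pt (FreeGroup.mk t))) ∨
        (a.2 = false ∧ pt w ∈ Y ∧ pt (FreeGroup.mk t) = h a.1 (pt w))) := by
    intro w hw a t hwt
    obtain ⟨z, hz, hz2⟩ := Acts.uncons hPF hwt (hpt w hw)
    have htW := hWt w hw a t hwt
    have hzpt : pt (FreeGroup.mk t) = z := Acts.unique hPF (hpt _ htW) hz
    rcases hz2 with ⟨ha, hs, hzA, he⟩ | ⟨ha, hs, hzA, he⟩
    · refine ⟨hs, Or.inl ⟨ha, hAY (hptA _ htW), ?_⟩⟩
      rw [hzpt]
      exact he
    · refine ⟨hs, Or.inr ⟨ha, hAY (hptA _ hw), ?_⟩⟩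
      rw [hzpt]
      exact he
  obtain ⟨K, hK, hK2⟩ := j1_relations hY hce W.ncard hW rfl hWt hrel V2
    (fun w hw => ⟨(hV2 w hw).1, (hV2 w hw).2.1⟩)
  have hKV1 : ∀ w ∈ W, K w ⊆ V1 w := fun w hw => (hK w hw).2.2.trans (hV2 w hw).2.2
  have hKV0 : ∀ w ∈ W, K w ⊆ V0 w := fun w hw => (hKV1 w hw).trans (hV1 w hw).2.2
  refine ⟨K, ?_, ?_, hK2, ?_⟩
  · intro w hw
    exact ⟨(hK w hw).1, (hKV0 w hw).trans (hV0A w hw), (hK w hw).2.1,
      fun y hy hne => hV0top w hw y (hKV0 w hw hy) hne⟩
  · intro w hw w' hw' x hx y hy g hact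
    by_contra hne
    refine hV1P (w, w', g) ⟨hw, hw', ?_, hne⟩ x (hKV1 w hw hx) y (hKV1 w' hw' hy) hact
    exact ⟨x, ⟨V0 w, mem_image_of_mem _ hw, hKV0 w hw hx⟩, y,
      ⟨V0 w', mem_image_of_mem _ hw', hKV0 w' hw' hy⟩, hact⟩
  · intro w hw i hi hne
    have h5 := hV2P (w, i) ⟨hw, hi, hne⟩
    refine Set.subset_eq_empty ?_ h5
    exact inter_subset_inter_left _ (hK w hw).2.2

end Pool.Agent.Helper33.QB
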