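import Pool.Agent.Helper33.QB.Frame
import Pool.Agent.Helper55.QB.Res
import Pool.Agent.Helper15.QB.VUnion
import Pool.Agent.Helper55.QB.Dense1

set_option autoImplicit false

namespace Pool.Agent.Helper33.QB

open Set Pool.Agent.Helper33.HMG Pool.Agent.Helper32.HB

variable {Ω : Type} {α : Ordinal.{0}} {b : Ordinal.{0} → NmD Ω Ordinal.{0}}

/-- Sequences of conditions. -/
theorem p5_seq {i : Ordinal.{0}} {S : ℕ → Cnd Ω Ordinal.{0} → Cnd Ω Ordinal.{0} → Prop}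
    (step : ∀ (n : ℕ) (q : Cnd Ω Ordinal.{0}), q ∈ V α b i → ∃ q' ∈ V α b i, Le q' q ∧ S n q q')
    {p : Cnd Ω Ordinal.{0}} (hp : p ∈ V α b i) :
    ∃ q ∈ V α b i, Le q p ∧ ∃ pn : ℕ → Cnd Ω Ordinal.{0}, pn 0 = p ∧ (∀ n, pn n ∈ V α b i) ∧
      (∀ n, S n (pn n) (pn (n + 1))) ∧ IsUn q pn := by
  choose F hF1 hF2 hF3 using step
  let s : ℕ → {q : Cnd Ω Ordinal.{0} // q ∈ V α b i} := fun n =>
    Nat.rec ⟨p, hp⟩ (fun n q => ⟨F n q.1 q.2, hF1 n q.1 q.2⟩) n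
  have hs : ∀ n, (s (n + 1)).1 = F n (s n).1 (s n).2 := fun n => rfl
  have hle : ∀ n, Le (s (n + 1)).1 (s n).1 := fun n => by
    rw [hs]; exact hF2 n _ _
  obtain ⟨q, hq, hu⟩ := V.union (pn := fun n => (s n).1) (fun n => (s n).2) hle
  refine ⟨q, hq, hu.le 0, fun n => (s n).1, rfl, fun n => (s n).2, fun n => ?_, hu⟩
  change S n (s n).1 (s (n + 1)).1
  rw [hs]
  exact hF3 n _ _

section

variable {inn : CP Ω α b → Ω → Prop} {p0 : CP Ω α b} {i j : Ordinal.{0}}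

/-- `q` decides the point `x`. -/
def p5_dec (inn : CP Ω α b → Ω → Prop) (p0 : CP Ω α b) (j : Ordinal.{0}) (q : Cnd Ω Ordinal.{0})
    (x : Ω) : Prop :=
  ∃ ε p', (p', x, ε) ∈ (nmOf inn p0 j).f ∧ Le q p'

theorem p5_dec_mono {p q : Cnd Ω Ordinal.{0}} (hp : Basic α p) (hq : Basic α q) (hle : Le q p)
    {x : Ω} (h : p5_dec inn p0 j p x) : p5_dec inn p0 j q x := by
  obtain ⟨ε, p', h1, h2⟩ := h
  exact ⟨ε, p', h1, Le.trans' hq hp hle h2⟩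

theorem p5_point [Uncountable Ω] (hα : Ind α) (hc : Closed inn p0 j) (hji : j ≤ i)
    {p : Cnd Ω Ordinal.{0}} (hp : p ∈ V α b i) (x : Ω) :
    ∃ q ∈ V α b i, Le q p ∧ p5_dec inn p0 j q x := by
  have h1 := V.res_mem hp j
  obtain ⟨r, hr, hrj, hd⟩ := hc.dec ⟨res p j, ⟨j, h1⟩⟩ h1 x
  obtain ⟨q, hq, hqp, hqr⟩ := dense_compat hα hji hp hrj hr
  have hqb := (mem_V.1 hq).1
  refine ⟨q, hq, hqp, ?_⟩
  have hle : Le q r.1 := Le.trans' hqb (Basic.res hqb j) (le_res hqb j) hqr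
  rcases hd with hd | hd
  · exact ⟨true, r.1, ⟨r, hrj, rfl, Or.inl ⟨rfl, hd⟩⟩, hle⟩
  · exact ⟨false, r.1, ⟨r, hrj, rfl, Or.inr ⟨rfl, hd⟩⟩, hle⟩

theorem p5_all [Uncountable Ω] (hα : Ind α) (hc : Closed inn p0 j) (hji : j ≤ i)
    {p : Cnd Ω Ordinal.{0}} (hp : p ∈ V α b i) :
    ∃ q ∈ V α b i, Le q p ∧ ∀ x ∈ p.Y, p5_dec inn p0 j q x := by
  have hpb := (mem_V.1 hp).1
  rcases p.Y.eq_empty_or_nonempty with h0 | hne
  · exact ⟨p, hp, Le.refl' hpb.gr, fun x hx => by rw [h0] at hx; exact hx.elim⟩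
  obtain ⟨e, he⟩ := hpb.cY.exists_eq_range hne
  obtain ⟨q, hq, hqp, pn, _, hV, hS, hu⟩ := p5_seq (S := fun n _ q' => p5_dec inn p0 j q' (e n))
    (fun n q hq => p5_point hα hc hji hq (e n)) hp
  refine ⟨q, hq, hqp, fun x hx => ?_⟩
  rw [he] at hx
  obtain ⟨n, rfl⟩ := hx
  exact p5_dec_mono (mem_V.1 (hV (n + 1))).1 (mem_V.1 hq).1 (hu.le (n + 1)) (hS n)

theorem nm_dense [Uncountable Ω] (hα : Ind α) (hm : ∀ p q x, q ≤ p → inn p x → inn q x)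
    (hc : Closed inn p0 j) (hji : j ≤ i) {p : Cnd Ω Ordinal.{0}} (hp : p ∈ V α b i)
    (hle : Le p p0.1) : ∃ q ∈ V α b i, Le q p ∧ Dec (nmOf inn p0 j) q := by
  obtain ⟨q, hq, hqp, pn, _, hV, hS, hu⟩ := p5_seq
    (S := fun _ p q => ∀ x ∈ p.Y, p5_dec inn p0 j q x)
    (fun n q hq => p5_all hα hc hji hq) hp
  have hqb := (mem_V.1 hq).1
  refine ⟨q, hq, hqp, Le.trans' hqb (mem_V.1 hp).1 hqp hle, fun x hx => ?_⟩
  rw [hu.Y] at hx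
  obtain ⟨n, hn⟩ := mem_iUnion.1 hx
  exact p5_dec_mono (mem_V.1 (hV (n + 1))).1 hqb (hu.le (n + 1)) (hS n x hn)

theorem nm_unb [Uncountable Ω] (hα : Ind α) (hm : ∀ p q x, q ≤ p → inn p x → inn q x)
    (hc : Closed inn p0 j) (hji : j ≤ i) {p : Cnd Ω Ordinal.{0}} (hp : p ∈ V α b i)
    (hd : Dec (nmOf inn p0 j) p) :
    ∃ q ∈ V α b i, Le q p ∧ Dec (nmOf inn p0 j) q ∧ ∃ y ∈ ev (nmOf inn p0 j) q, y ∉ p.Y := by
  have hpb := (mem_V.1 hp).1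
  have hp0 : Le p p0.1 := hd.1
  have h1 := V.res_mem hp j
  have h2 : Le (res p j) p0.1 := by
    have := Le.res hp0 j
    rwa [res_eq_self p0.basic (V.letters hc.mem)] at this
  obtain ⟨r, hr, hrj, y, hy, hyp, hyi⟩ := hc.unb ⟨res p j, ⟨j, h1⟩⟩ h1 h2
  obtain ⟨s, hs, hsp, hsr⟩ := dense_compat hα hji hp hrj hr
  have hsb := (mem_V.1 hs).1
  obtain ⟨q, hq, hqs, hqd⟩ := nm_dense hα hm hc hji hs (Le.trans' hsb hpb hsp hp0)
  have hqb := (mem_V.1 hq).1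
  have hqr : Le q r.1 := Le.trans' hqb hsb hqs
    (Le.trans' hsb (Basic.res hsb j) (le_res hsb j) hsr)
  refine ⟨q, hq, Le.trans' hqb hsb hqs hsp, hqd, y, ⟨hqr.cp.sub hy, r.1,
    ⟨r, hrj, rfl, Or.inl ⟨rfl, hyi⟩⟩, hqr⟩, hyp⟩

end

end Pool.Agent.Helper33.QB
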